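import Mathlib
import Pool.Agent.H868R3.TateAb
import Pool.Agent.H868R3.TateExt

/-!
# Tate classes on abelian varieties over finite fields: Frobenius fields with an abelian transitive
group

Let `A` be an abelian variety over the field with `p ^ a` elements, `V` the dual of (or) its first
cohomology, `F` the Frobenius. Suppose that the eigenvalues of `F` are conjugates of one number `π`
(so `A` is isogenous to a power of a simple abelian variety), which generates a CM field `K` such
that an abelian subgroup of the Galois group of the Galois closure of `K` is transitive on the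
embeddings of `K` (`K` abelian over `ℚ`, or of degree twice a prime number, or generic). If no *set*
of slopes is balanced together with all its Galois translates, then all Tate classes on all powers
of `A`, over all finite extensions, are polynomials in Tate classes of degree one.
-/

set_option autoImplicit false

namespace Pool.Agent.Results.MP_ee618e_ag.AbelianTransitiveFields

open Module Pool.Agent.H204R3.CM Pool.Agent.H868R3.GPI

/-- There is no nonempty set `T` of `p`-adic embeddings of `K`, disjoint from its complex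
conjugate, such that for `T` and all its translates by automorphisms the mean value of the slopes
`v (τ π)` is `a / 2`. Here `v = - log_p ‖ ‖` is the `p`-adic valuation with `v p = 1`. -/
def NoBalancedSet (p : ℕ) [Fact p.Prime] {K : Type} [Field K] [NumberField K]
    [NumberField.IsCMField K] (a : ℕ) (π : K) : Prop :=
  ∀ T : Finset (K →+* PadicAlgCl p), T.Nonempty → (∀ τ ∈ T, cbar τ ∉ T) →
    ∃ σ : PadicAlgCl p ≃+* PadicAlgCl p, ∑ τ ∈ T, (2 * (-Real.logb p ‖σ (τ π)‖) - a) ≠ 0

/-- Every element `x` of degree `2 m` of the exterior algebra of `V` with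
`F ^ s x = (p ^ a) ^ (m s) x` is in the subalgebra generated by the elements `y` of degree two with
`F y = p ^ a y`. -/
theorem result (p : ℕ) [Fact p.Prime] (K : Type) [Field K] [NumberField K]
    [NumberField.IsCMField K] (hK : AbTrans K) (a : ℕ) (π : K)
    (hgen : IntermediateField.adjoin ℚ {π} = ⊤)
    (hweil : ∀ φ : K →+* ℂ, ‖φ π‖ ^ 2 = (p : ℝ) ^ a)
    (hslope : NoBalancedSet p a π)
    {Ω : Type*} [Field Ω] [IsAlgClosed Ω] [CharZero Ω]
    {V : Type*} [AddCommGroup V] [Module Ω V] (F : V →ₗ[Ω] V)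
    (hF : Submodule.span Ω {v : V | ∃ σ : K →+* Ω, F v = σ π • v} = ⊤)
    (m s : ℕ) (hs : 0 < s) (x : ExteriorAlgebra Ω V) (hx : x ∈ ⋀[Ω]^(2 * m) V)
    (hFx : ExteriorAlgebra.map (F ^ s) x = (((p : Ω) ^ a) ^ m) ^ s • x) :
    x ∈ Algebra.adjoin Ω
      {y : ExteriorAlgebra Ω V | y ∈ ⋀[Ω]^2 V ∧ ExteriorAlgebra.map F y = (p : Ω) ^ a • y} := by
  classical
  have hq : (0 : ℚ) < (p : ℚ) ^ a := pow_pos (by exact_mod_cast (Fact.out : p.Prime).pos) _
  have hcast : (((p : ℚ) ^ a : ℚ) : Ω) = (p : Ω) ^ a := by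
    push_cast
    rfl
  have hweil' : ∀ φ : K →+* ℂ, ‖φ π‖ ^ 2 = ((((p : ℚ) ^ a : ℚ)) : ℝ) := by
    intro φ
    rw [hweil φ]
    push_cast
    rfl
  have hπ : π ≠ 0 := Pool.Agent.H868R3.TwoOdd.weil_ne hq hweil'
  have hbot := Pool.Agent.H868R3.TateAb.relW_bot hK hq π hπ hweil'
    (Pool.Agent.H868R3.TateAb.no_relation p a π hπ hslope)
  rw [← hcast]
  refine Pool.Agent.H925R2.mem_adjoin_of_balanced F ((((p : ℚ) ^ a : ℚ)) : Ω)
    {μ : Ω | ∃ σ : K →+* Ω, σ π = μ} ?_ ?_ m s ?_ x hx (by rw [hFx, hcast])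
  · exact Pool.Agent.H868R3.TwoOdd.conj_ne (fun _ : Unit => K) (fun _ => (p : ℚ) ^ a)
      (fun _ => hq) (fun _ => π) (fun _ => hgen) (fun _ => hweil') ()
  · rw [← hF]
    congr 1
    ext v
    constructor
    · rintro ⟨μ, ⟨σ, rfl⟩, h⟩
      exact ⟨σ, h⟩
    · rintro ⟨σ, h⟩
      exact ⟨_, ⟨σ, rfl⟩, h⟩
  · intro L hlen hL hprod z hz
    rw [Pool.Agent.H868R3.TwoOdd.list_count_eq, Pool.Agent.H868R3.TwoOdd.list_count_eq]
    refine Pool.Agent.H868R3.TateAb.balanced hq π hπ hgen hweil' hbot s hs
      ((((p : ℚ) ^ a : ℚ) : Ω) ^ m) (by rw [hlen, ← pow_mul, mul_comm]) L.get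
      (fun i => hL _ (List.get_mem L i)) ?_ z hz
    rw [← hprod]
    congr 1
    exact (List.prod_ofFn (f := L.get)).symm.trans (by rw [List.ofFn_get])

end Pool.Agent.Results.MP_ee618e_ag.AbelianTransitiveFields
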