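import Mathlib
import Pool.Agent.H868R3.TateExt

/-!
# Tate classes on abelian varieties over finite fields: 2-power degree, independent discriminants

Let `K i` be finitely many CM fields of degrees `2 ^ (k i + 1)` whose discriminants are independent
modulo squares (no product of the discriminants over a nonempty set of indices is a square; for one
field: its discriminant is not a square).  Let `π i` be a Weil number of weight one for
`q = p ^ a` which generates `K i`, and suppose that the numbers `2 v (τ (π i)) - a`, `τ` running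
through the embeddings of `K i` in an algebraic closure of the `p`-adic numbers, are all of the
form `κ i * odd`, with `κ i ≠ 0` rational (for example the ordinary case: all are `± a`).

Let `A` be any product of powers of the simple abelian varieties over the field with `q` elements
that correspond to the `π i`, or any abelian variety isogenous to such a product; `V` is its first
`ℓ`-adic cohomology with coefficients extended to an algebraically closed field and `F` the
Frobenius.  Then all Tate classes on `A` over all finite extensions of the base field, in all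
degrees, are polynomials in Tate classes of degree one (over the base field), which are classes of
divisors by the theorem of Tate: the Tate conjecture holds for `A` in all degrees.
-/

set_option autoImplicit false

namespace Pool.Agent.Results.MP_ee618e_ag.IndependentDiscriminants

open Module

/-- `F ^ s` acts on the class `x` of degree `2 m` by `q ^ (m s)`, `q = p ^ a`: `x` is a Tate class
over the extension of degree `s`. The conclusion: it is a polynomial in the classes `y` of degree
two with `F y = q y`. -/
theorem result (p : ℕ) [Fact p.Prime] (a : ℕ) {I : Type} [Finite I] (K : I → Type)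
    [∀ i, Field (K i)] [∀ i, NumberField (K i)] [∀ i, NumberField.IsCMField (K i)]
    (k : I → ℕ) (hdeg : ∀ i, finrank ℚ (K i) = 2 ^ (k i + 1))
    (hdisc : ∀ S : Finset I, S.Nonempty → ¬ IsSquare (∏ i ∈ S, NumberField.discr (K i)))
    (π : ∀ i, K i) (hgen : ∀ i, IntermediateField.adjoin ℚ {π i} = ⊤)
    (hweil : ∀ i, ∀ φ : K i →+* ℂ, ‖φ (π i)‖ ^ 2 = (p : ℝ) ^ a)
    (κ : I → ℚ) (hκ : ∀ i, κ i ≠ 0) (o : ∀ i, (K i →+* PadicAlgCl p) → ℤ)
    (hodd : ∀ i τ, Odd (o i τ))
    (hslope : ∀ i, ∀ τ : K i →+* PadicAlgCl p,
      2 * (- Real.logb p ‖τ (π i)‖) - a = (κ i : ℝ) * o i τ)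
    {Ω : Type*} [Field Ω] [IsAlgClosed Ω] [CharZero Ω]
    {V : Type*} [AddCommGroup V] [Module Ω V] (F : V →ₗ[Ω] V)
    (hF : Submodule.span Ω {v : V | ∃ i, ∃ σ : K i →+* Ω, F v = σ (π i) • v} = ⊤)
    (m s : ℕ) (hs : 0 < s) (x : ExteriorAlgebra Ω V) (hx : x ∈ ⋀[Ω]^(2 * m) V)
    (hFx : ExteriorAlgebra.map (F ^ s) x = (((p : Ω) ^ a) ^ m) ^ s • x) :
    x ∈ Algebra.adjoin Ω
      {y : ExteriorAlgebra Ω V | y ∈ ⋀[Ω]^2 V ∧ ExteriorAlgebra.map F y = (p : Ω) ^ a • y} := by
  have hq : (0 : ℚ) < (p : ℚ) ^ a := pow_pos (by exact_mod_cast (Fact.out : p.Prime).pos) a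
  have hp1 : (1 : ℝ) < p := by exact_mod_cast (Fact.out : p.Prime).one_lt
  have hcast : (((p : ℚ) ^ a : ℚ) : Ω) = (p : Ω) ^ a := by
    push_cast
    rfl
  have h1 : - Real.logb p ‖((((p : ℚ) ^ a : ℚ)) : PadicAlgCl p)‖ = a := by
    rw [Pool.Agent.H925R2.norm_pow_cast, Real.logb_inv, Real.logb_pow,
      Real.logb_self_eq_one hp1]
    ring
  rw [← hcast]
  refine Pool.Agent.H868R3.TwoOdd.ext_main p K k hdeg hdisc ((p : ℚ) ^ a) hq π hgen
    (fun i φ => by rw [hweil i φ]; push_cast; rfl) κ hκ o hodd
    (fun i τ => by rw [h1]; exact hslope i τ) F hF m s hs x hx (by rw [hFx, hcast])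

end Pool.Agent.Results.MP_ee618e_ag.IndependentDiscriminants
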